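import Pool.Agent.EGF.StmtsS
import Pool.Agent.Helper73_EG.Defs
import Pool.Agent.Helper10_EGF.REC
import Pool.Agent.Helper75_EGF.PAL
import Pool.Agent.Helper81_EGF.DRC
import Pool.Agent.Helper33_EGF.DRE
import Pool.Agent.Helper47_EGF.MIN
import Pool.Agent.Helper85_EGF.MAJ
import Pool.Agent.Helper69_EGF.FLT
import Pool.Agent.Helper60_EGF.INI
import Pool.Agent.Helper68_EGF.STP
import Pool.Agent.Helper68_EGF.ENT
import Pool.Agent.Helper26_EGF.BOO
import Pool.Agent.Helper17_EGF.ST0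
import Pool.Agent.Helper41_EGF.STC
import Pool.Agent.Helper69_EGF.LOC
import Pool.Agent.Helper39_EGF.OW2
import Pool.Agent.Helper94_EGF.RD3

/-!
# Assembly, part 1: the finished statements MAJ, STC, LOC, OW2, ENT, RD3
-/

set_option autoImplicit false

namespace Pool.Agent.EGF.H84.S

open Pool.Agent.EGF

theorem flt : FltStmt := H69.flt (H33.dre H81.drc) H75.pal

theorem ini : IniStmt := H60.ini H10.rec_ flt

theorem maj_ : MajStmt := H85.maj_ H47.min_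

theorem stp : StpStmt := H68.stp H10.rec_ maj_ flt

theorem boo : BooStmt := H26.boo stp

theorem stc : StcStmt := H41.stc (H17.st0 ini boo) stp

theorem loc : LocStmt := H69.loc maj_

theorem ow2 : Ow2Stmt := H39.ow2 H47.min_

theorem ent : EntStmt := H68.ent

theorem rd3 : Rd3Stmt := H94.rd3

/-- from `Pool.Agent.EGF.Forces` to the definition `Forces` of `Helper73_EG` -/
theorem of_fn4 (fn4 : Fn4Stmt) : ∀ p : ℕ, 4 ≤ p → ∀ ε : ℝ, 0 < ε → ∃ k₀ : ℕ, ∀ k : ℕ, k₀ ≤ k →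
    ∀ n : ℕ, Real.exp (ε * k) ≤ n → Helper73_EG.Forces p k n := by
  intro p hp ε hε
  obtain ⟨k₀, h⟩ := fn4 p hp ε hε
  refine ⟨k₀, fun k hk n hn => ?_⟩
  intro c hc
  obtain ⟨S, hS, hS'⟩ := h k hk n hn c hc
  refine ⟨S, hS, le_trans (le_of_eq ?_) hS'⟩
  have hP : (S.offDiag.image (fun e => c e.1 e.2)) = pal c S := by
    ext a
    simp only [pal, Finset.mem_image, Finset.mem_offDiag, Finset.mem_filter, Finset.mem_product]
    constructor
    · rintro ⟨x, ⟨h1, h2, h3⟩, h4⟩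
      exact ⟨x, ⟨⟨h1, h2⟩, h3⟩, h4⟩
    · rintro ⟨x, ⟨⟨h1, h2⟩, h3⟩, h4⟩
      exact ⟨x, ⟨h1, h2, h3⟩, h4⟩
  rw [hP]

end Pool.Agent.EGF.H84.S
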