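import Pool.Agent.EGF.StmtsV
import Pool.Agent.Helper84_EGF.Base4
import Pool.Agent.Helper31_EGF.STA2
import Pool.Agent.Helper23_EGF.SPR
import Pool.Agent.Helper66_EGF.BMD
import Pool.Agent.Helper67_EGF.LRE
import Pool.Agent.Helper28_EGF.UPM
import Pool.Agent.Helper80_EGF.UBA
import Pool.Agent.Helper38_EGF.UBB
import Pool.Agent.Helper23_EGF.TPL
import Pool.Agent.Helper67_EGF.TPQ
import Pool.Agent.Helper90_EGF.BON
import Pool.Agent.Helper24_EGF.TPM
import Pool.Agent.Helper68_EGF.CGA
import Pool.Agent.Helper59_EGF.CRQ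
import Pool.Agent.Helper26_EGF.NEV
import Pool.Agent.Helper24_EGF.MX2
import Pool.Agent.Helper41_EGF.WTS
import Pool.Agent.Helper7_EGF.CNV
import Pool.Agent.Helper67_EGF.PIG
import Pool.Agent.Helper90_EGF.AVS
import Pool.Agent.Helper17_EGF.SPC
import Pool.Agent.Helper95_EGF.RBD
import Pool.Agent.Helper38_EGF.RO2
import Pool.Agent.Helper49_EGF.RS1
import Pool.Agent.Helper23_EGF.NRS
import Pool.Agent.Helper60_EGF.CLA
import Pool.Agent.Helper43_EGF.PLT
import Pool.Agent.Helper44_EGF.NUM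

/-!
# Assembly for every p at least 4, part 1: the core CRQ, the pair of spots SPC, the nested records CLA
-/

set_option autoImplicit false

namespace Pool.Agent.EGF.H84.P4

open Pool.Agent.EGF Pool.Agent.EGF.H84.S

theorem tpm : TpmStmt := H24.tpm H23.tpl H67.tpq H90.bon

theorem cga : CgaStmt := H68.cga (H80.uba H28.upm) tpm

theorem crq : CrqStmt := H59.crq (H38.ubb H28.upm) cga tpm

theorem spr : SprStmt := H23.spr ow2

theorem avs : AvsStmt := H90.avs (H24.mx2 H66.bmd) H41.wts H7.cnv H67.pig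

theorem spc : SpcStmt := H17.spc avs crq

theorem ro2 : Ro2Stmt := H38.ro2 (H95.rbd ent)

theorem cla : ClaStmt := H60.cla (H26.nev spr) (H23.nrs H49.rs1)

theorem sta2 : Sta2Stmt := H31.sta2 ini stp

end Pool.Agent.EGF.H84.P4
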