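import Pool.Agent.EGF.StmtsP
import Pool.Agent.Helper73_EG.Defs
import Pool.Agent.Helper10_EGF.REC
import Pool.Agent.Helper75_EGF.PAL
import Pool.Agent.Helper81_EGF.DRC
import Pool.Agent.Helper33_EGF.DRE
import Pool.Agent.Helper47_EGF.MIN
import Pool.Agent.Helper85_EGF.MAJ
import Pool.Agent.Helper69_EGF.FLT
import Pool.Agent.Helper60_EGF.INI
import Pool.Agent.Helper68_EGF.STP
import Pool.Agent.Helper48_EGF.RAT
import Pool.Agent.Helper44_EGF.Own
import Pool.Agent.Helper20_EGF.TYP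
import Pool.Agent.Helper68_EGF.ENT
import Pool.Agent.Helper87_EGF.XSE
import Pool.Agent.Helper91_EGF.YSE
import Pool.Agent.Helper38_EGF.RND
import Pool.Agent.Helper47_EGF.CNT
import Pool.Agent.Helper92_EGF.RED
import Pool.Agent.Helper26_EGF.REG2
import Pool.Agent.Helper67_EGF.ITE2
import Pool.Agent.Helper62_EGF.CLS2
import Pool.Agent.Helper31_EGF.STA2
import Pool.Agent.Helper24_EGF.PAR2
import Pool.Agent.Helper58_EGF.MAI2
import Pool.Agent.Helper23_EGF.FIN2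

/-!
# Assembly: log F(p, k) is at most k ^ (1 - e) for every p at least 32 and k large
-/

set_option autoImplicit false

namespace Pool.Agent.EGF.H84

open Pool.Agent.EGF

theorem flt : FltStmt := H69.flt (H33.dre H81.drc) H75.pal

theorem ini : IniStmt := H60.ini H10.rec_ flt

theorem maj_ : MajStmt := H85.maj_ H47.min_

theorem stp : StpStmt := H68.stp H10.rec_ maj_ flt

theorem xse : XseStmt := H87.xse (H33.dre H81.drc)

theorem yse : YseStmt := H91.yse (H33.dre H81.drc) H68.ent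

theorem rnd : RndStmt := H38.rnd maj_ H20.typ xse yse

theorem ite2 : Ite2Stmt := H67.ite2 rnd H47.cnt H26.reg2

theorem cls2 : Cls2Stmt := H62.cls2 (H44.own H47.min_) ite2

theorem mai2 : Mai2Stmt := H58.mai2 (H31.sta2 ini stp) (H48.rat H10.rec_) cls2 H24.par2

theorem fin2 : Fin2Stmt := H23.fin2 mai2 H92.red

/-- the same with the definition `Forces` of `Helper73_EG` -/
theorem main : ∃ e : ℝ, 0 < e ∧ ∀ p : ℕ, 32 ≤ p → ∃ k₀ : ℕ, ∀ k : ℕ, k₀ ≤ k → ∀ n : ℕ,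
    Real.exp ((k : ℝ) ^ (1 - e)) ≤ n → Helper73_EG.Forces p k n := by
  obtain ⟨e, he, h⟩ := fin2
  refine ⟨e, he, fun p hp => ?_⟩
  obtain ⟨k₀, h⟩ := h p hp
  refine ⟨k₀, fun k hk n hn => ?_⟩
  intro c hc
  obtain ⟨S, hS, hS'⟩ := h k hk n hn c hc
  refine ⟨S, hS, le_trans (le_of_eq ?_) hS'⟩
  have hP : (S.offDiag.image (fun e => c e.1 e.2)) = pal c S := by
    ext a
    simp only [pal, Finset.mem_image, Finset.mem_offDiag, Finset.mem_filter, Finset.mem_product]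
    constructor
    · rintro ⟨x, ⟨h1, h2, h3⟩, h4⟩
      exact ⟨x, ⟨⟨h1, h2⟩, h3⟩, h4⟩
    · rintro ⟨x, ⟨⟨h1, h2⟩, h3⟩, h4⟩
      exact ⟨x, ⟨h1, h2, h3⟩, h4⟩
  rw [hP]

end Pool.Agent.EGF.H84
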