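import Pool.Agent.Helper84_EGF.Base4
import Pool.Agent.Helper66_EGF.BMD
import Pool.Agent.Helper14_EGF.MIX
import Pool.Agent.Helper77_EGF.SYM
import Pool.Agent.Helper82_EGF.Conc
import Pool.Agent.Helper65_EGF.HIG
import Pool.Agent.Helper64_EGF.CEL
import Pool.Agent.Helper26_EGF.CRE
import Pool.Agent.Helper67_EGF.LRE
import Pool.Agent.Helper60_EGF.GIN
import Pool.Agent.Helper76_EGF.RCT
import Pool.Agent.Helper2_EGF.LGT
import Pool.Agent.Helper91_EGF.RBC
import Pool.Agent.Helper41_EGF.STS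
import Pool.Agent.Helper23_EGF.SPR
import Pool.Agent.Helper76_EGF.SAP
import Pool.Agent.Helper98_EGF.STG
import Pool.Agent.Helper92_EGF.GRD
import Pool.Agent.Helper32_EGF.CL4
import Pool.Agent.Helper3_EGF.MA4
import Pool.Agent.Helper76_EGF.FN4

/-!
# Assembly: log F(p, k) is o(k) for every p at least 4

The idea of the proof (large-star palettes, exponentially saturated pairs) is due to helper32.
-/

set_option autoImplicit false

namespace Pool.Agent.EGF.H84.S

open Pool.Agent.EGF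

theorem cre : CreStmt := H26.cre (H77.sym (H14.mix H66.bmd)) H82.con H65.hig H64.cel

theorem stg : StgStmt := H98.stg (H2.lgt H60.gin loc) (H91.rbc ent) H41.sts H67.lre cre

theorem cl4 : Cl4Stmt := H32.cl4 H76.rct (H23.spr ow2) H76.sap H92.grd stg

theorem fn4 : Fn4Stmt := H76.fn4 (H3.ma4 stc cl4) rd3

/-- **THE THEOREM**: `log F(p, k) ≤ ε k` for every `p ≥ 4`, `ε > 0` and `k ≥ k₀ (p, ε)`. -/
theorem main4 : ∀ p : ℕ, 4 ≤ p → ∀ ε : ℝ, 0 < ε → ∃ k₀ : ℕ, ∀ k : ℕ, k₀ ≤ k →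
    ∀ n : ℕ, Real.exp (ε * k) ≤ n → Helper73_EG.Forces p k n := of_fn4 fn4

end Pool.Agent.EGF.H84.S
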