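import Pool.Agent.Helper84_EGF.CoreP4
import Pool.Agent.Helper32_EGF.SHR
import Pool.Agent.Helper32_EGF.FAN
import Pool.Agent.Helper41_EGF.GSP
import Pool.Agent.Helper66_EGF.ONE
import Pool.Agent.Helper47_EGF.CLQ
import Pool.Agent.Helper51_EGF.MAP
import Pool.Agent.Helper42_EGF.FNP

/-!
# Assembly: log F(p, k) is at most k ^ (1 - e) for every p at least 4 and k large
-/

set_option autoImplicit false

namespace Pool.Agent.EGF.H84.P4

open Pool.Agent.EGF Pool.Agent.EGF.H84.S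

theorem gsp : GspStmt := H41.gsp H32.shr H32.fan

theorem one : OneStmt := H66.one H67.lre ro2 gsp spc

theorem clq : ClqStmt := H47.clq spr cla H43.plt one

theorem map_ : MapStmt := H51.map sta2 clq H44.num

theorem fnp : FnpStmt := H42.fnp map_ rd3

/-- the same with the definition `Forces` of `Helper73_EG` -/
theorem main : ∃ e : ℝ, 0 < e ∧ ∀ p : ℕ, 4 ≤ p → ∃ k₀ : ℕ, ∀ k : ℕ, k₀ ≤ k → ∀ n : ℕ,
    Real.exp ((k : ℝ) ^ (1 - e)) ≤ n → Helper73_EG.Forces p k n := by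
  obtain ⟨e, he, h⟩ := fnp
  refine ⟨e, he, fun p hp => ?_⟩
  obtain ⟨k₀, h⟩ := h p hp
  refine ⟨k₀, fun k hk n hn => ?_⟩
  intro c hc
  obtain ⟨S, hS, hS'⟩ := h k hk n hn c hc
  refine ⟨S, hS, le_trans (le_of_eq ?_) hS'⟩
  have hP : (S.offDiag.image (fun e => c e.1 e.2)) = pal c S := by
    ext a
    simp only [pal, Finset.mem_image, Finset.mem_offDiag, Finset.mem_filter, Finset.mem_product]
    constructor
    · rintro ⟨x, ⟨h1, h2, h3⟩, h4⟩
      exact ⟨x, ⟨⟨h1, h2⟩, h3⟩, h4⟩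
    · rintro ⟨x, ⟨⟨h1, h2⟩, h3⟩, h4⟩
      exact ⟨x, ⟨h1, h2, h3⟩, h4⟩
  rw [hP]

end Pool.Agent.EGF.H84.P4
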